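import Pool.Agent.Helper43.Rank.Hoelder
import Pool.Agent.Helper83.RK2.Main2

/-!
# Hölder actions of powers of the `p`-adic integers (module M7 of RANK)
-/

set_option autoImplicit false
set_option linter.unusedSectionVars false
set_option linter.style.haveILetI false

open Set MeasureTheory Metric Filter Topology
open scoped NNReal ENNReal

namespace Pool.Agent.Helper43.Rank

open Pool.Agent.Helper3.HS Pool.Agent.Helper83.RK

variable {p : ℕ} [hp : Fact p.Prime]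

/-- The normalised Haar measure. -/
theorem exists_haar (m : ℕ) [MeasurableSpace ℤ_[p]] [BorelSpace ℤ_[p]] :
    ∃ ν : Measure (Gp (m + 1) p), IsProbabilityMeasure ν ∧ ν.IsAddHaarMeasure := by
  let K : TopologicalSpace.PositiveCompacts (Gp (m + 1) p) := ⊤
  refine ⟨Measure.addHaarMeasure K, ⟨?_⟩, inferInstance⟩
  exact Measure.addHaarMeasure_self

/-- The case of Hölder continuous maps. -/
theorem main_holder {d m : ℕ} {X : Type*} [MetricSpace X] [AddAction (Gp (m + 1) p) X]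
    [ContinuousVAdd (Gp (m + 1) p) X] {W : Set X} (hWo : IsOpen W) (hWn : W.Nonempty)
    (hW : W ⊆ regPts (d + 1) X)
    (hH : ∀ x ∈ W, ∃ V ∈ 𝓝 x, ∃ C b : ℝ≥0, (d : ℝ) < b * (d + 1 + (m + 1) : ℕ) ∧
      ∀ a : Gp (m + 1) p, HolderOnWith C b (fun y => a +ᵥ y) V) :
    ∃ K : ℕ, ∀ k, K ≤ k → ∃ a : Gp (m + 1) p, Prim a ∧ ∃ x ∈ W,
      (((p : ℤ_[p]) ^ k • a : Gp (m + 1) p) +ᵥ x) = x := by
  borelize X ℤ_[p]
  obtain ⟨ν, h1, h2⟩ := exists_haar (p := p) m
  refine Pool.Agent.Helper83.RK2.main2 (ν := ν) hWo hWn hW fun x hx => ?_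
  obtain ⟨V, hV, C, b, hb, hHV⟩ := hH x hx
  exact energy_of_holder (hW hx) hb hV hHV

/-- Coordinates `M, ..., M + m` of a sequence. -/
noncomputable def emb (p : ℕ) [Fact p.Prime] (m M : ℕ) : Gp (m + 1) p →+ (ℕ → ℤ_[p]) where
  toFun a := fun i => if h : i - M < m + 1 ∧ M ≤ i then a ⟨i - M, h.1⟩ else 0
  map_zero' := by
    funext i
    show (if h : i - M < m + 1 ∧ M ≤ i then (0 : Gp (m + 1) p) ⟨i - M, h.1⟩ else 0) = 0
    split_ifs <;> rfl
  map_add' a b := by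
    funext i
    show (if h : i - M < m + 1 ∧ M ≤ i then (a + b) ⟨i - M, h.1⟩ else 0) =
      (if h : i - M < m + 1 ∧ M ≤ i then a ⟨i - M, h.1⟩ else 0) +
        (if h : i - M < m + 1 ∧ M ≤ i then b ⟨i - M, h.1⟩ else 0)
    split_ifs
    · rfl
    · rw [add_zero]

theorem emb_lt (m M : ℕ) (a : Gp (m + 1) p) {i : ℕ} (hi : i < M) : emb p m M a i = 0 := by
  have h : ¬ (i - M < m + 1 ∧ M ≤ i) := by omega
  exact dif_neg h

theorem emb_add (m M : ℕ) (a : Gp (m + 1) p) (k : Fin (m + 1)) : emb p m M a (M + k) = a k := by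
  have h : (M + (k : ℕ)) - M < m + 1 ∧ M ≤ M + k := by have := k.2; omega
  have h1 : emb p m M a (M + k) = a ⟨(M + (k : ℕ)) - M, h.1⟩ := dif_pos h
  rw [h1]
  congr 1
  ext
  simp

theorem continuous_emb (m M : ℕ) : Continuous (emb p m M) := by
  refine continuous_pi fun i => ?_
  by_cases h : i - M < m + 1 ∧ M ≤ i
  · have h1 : (fun a => emb p m M a i) = fun a => a ⟨i - M, h.1⟩ := by
      funext a
      exact dif_pos h
    rw [h1]
    exact continuous_apply _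
  · have h1 : (fun a => emb p m M a i) = fun _ => 0 := by
      funext a
      exact dif_neg h
    rw [h1]
    exact continuous_const

theorem pow_smul_ne_zero {m k : ℕ} {a : Gp (m + 1) p} (ha : Prim a) :
    ((p : ℤ_[p]) ^ k • a : Gp (m + 1) p) ≠ 0 := by
  obtain ⟨i, hi⟩ := ha
  intro h
  have h1 : (p : ℤ_[p]) ^ k * a i = 0 := congrFun h i
  have h2 : (p : ℤ_[p]) ≠ 0 := by exact_mod_cast hp.out.ne_zero
  rcases mul_eq_zero.1 h1 with h3 | h3
  · exact pow_ne_zero k h2 h3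
  · exact hi (by rw [h3]; exact dvd_zero _)

/-- An infinite power of the `p`-adic integers does not act freely, not even on an open set of
regular points, if each of its elements is locally Hölder continuous. -/
theorem no_infinite_power {d : ℕ} {X : Type*} [MetricSpace X] [AddAction (ℕ → ℤ_[p]) X]
    [ContinuousVAdd (ℕ → ℤ_[p]) X] {W : Set X} (hWo : IsOpen W) (hWn : W.Nonempty)
    (hW : W ⊆ regPts (d + 1) X)
    (hH : ∀ (a : ℕ → ℤ_[p]), ∀ x ∈ W, ∃ V ∈ 𝓝 x, ∃ C b : ℝ≥0, 0 < b ∧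
      HolderOnWith C b (fun y => a +ᵥ y) V) :
    ∃ a : ℕ → ℤ_[p], a ≠ 0 ∧ ∃ x ∈ W, a +ᵥ x = x := by
  obtain ⟨H, hH0, x, hx, V, hV, C, b, hb, hHV⟩ := exists_uniform hWo hWn hH
  obtain ⟨M, hM⟩ := exists_zeros hH0
  obtain ⟨m, hm⟩ : ∃ m : ℕ, (d : ℝ) < b * (d + 1 + (m + 1) : ℕ) := by
    have hb' : (0 : ℝ) < b := by exact_mod_cast hb
    obtain ⟨m, hm⟩ := exists_nat_gt ((d : ℝ) / b)
    refine ⟨m, ?_⟩
    rw [div_lt_iff₀ hb'] at hm
    push_cast
    nlinarith [Nat.cast_nonneg (α := ℝ) d]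
  let θ := emb p m M
  letI : AddAction (Gp (m + 1) p) X := AddAction.compHom X θ
  have hdef : ∀ (a : Gp (m + 1) p) (y : X), a +ᵥ y = θ a +ᵥ y := fun a y => rfl
  haveI : ContinuousVAdd (Gp (m + 1) p) X := ⟨by
    have h1 : Continuous fun q : (ℕ → ℤ_[p]) × X => q.1 +ᵥ q.2 := continuous_vadd
    exact h1.comp (((continuous_emb m M).comp continuous_fst).prodMk continuous_snd)⟩
  obtain ⟨K, hK⟩ := main_holder (d := d) (m := m) (X := X) (W := W ∩ interior V)
    (hWo.inter isOpen_interior) ⟨x, hx, mem_interior_iff_mem_nhds.2 hV⟩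
    (fun y hy => hW hy.1) fun y hy => ⟨V, mem_interior_iff_mem_nhds.1 hy.2, C, b, hm, fun a =>
      hHV (θ a) (hM _ fun i hi => emb_lt m M a hi)⟩
  obtain ⟨a, ha, y, hy, hfix⟩ := hK K le_rfl
  refine ⟨θ ((p : ℤ_[p]) ^ K • a), ?_, y, hy.1, hfix⟩
  intro h0
  apply pow_smul_ne_zero (k := K) ha
  funext i
  have h1 := emb_add m M ((p : ℤ_[p]) ^ K • a) i
  rw [← h1]
  exact congrFun h0 _

end Pool.Agent.Helper43.Rank
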