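import Mathlib

/-!
# The cover of the fibre by types (module M3 of RANK)
-/

set_option autoImplicit false
set_option linter.unusedSectionVars false

open Set Filter Topology

namespace Pool.Agent.Helper43.Rank

section basic

variable {V : Type*} {G : Type*} [AddGroup G] {p m : ℕ}

/-- The label of `x` in the orbit of `Q`. -/
noncomputable def lab (lam : G →+ (Fin m → ZMod p)) (g : G → V → V) (Q : Set V) (x : V) :
    Fin m → ZMod p := by
  classical
  exact if h : ∃ a, g a x ∈ Q then -lam h.choose else 0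

theorem lab_eq {lam : G →+ (Fin m → ZMod p)} {U : Set V} {g : G → V → V}
    (hgU : ∀ a, ∀ x ∈ U, g a x ∈ U) (hadd : ∀ a b, ∀ x ∈ U, g (a + b) x = g a (g b x))
    {Q : Set V} (hsep : ∀ a, ∀ x ∈ U, x ∈ Q → g a x ∈ Q → lam a = 0) {x : V} (hx : x ∈ U) {a : G}
    (ha : g a x ∈ Q) : lab lam g Q x = -lam a := by
  classical
  have h : ∃ a, g a x ∈ Q := ⟨a, ha⟩
  have h1 : lab lam g Q x = -lam h.choose := dif_pos h
  have h2 := h.choose_spec
  rw [h1]
  have h3 : g (a - h.choose) (g h.choose x) = g a x := by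
    rw [← hadd _ _ x hx, sub_add_cancel]
  have h4 := hsep (a - h.choose) (g h.choose x) (hgU _ x hx) h2 (by rw [h3]; exact ha)
  rw [map_sub, sub_eq_zero] at h4
  rw [h4]

theorem lab_add {lam : G →+ (Fin m → ZMod p)} {U : Set V} {g : G → V → V}
    (hgU : ∀ a, ∀ x ∈ U, g a x ∈ U) (hadd : ∀ a b, ∀ x ∈ U, g (a + b) x = g a (g b x))
    {Q : Set V} (hsep : ∀ a, ∀ x ∈ U, x ∈ Q → g a x ∈ Q → lam a = 0) {x : V} (hx : x ∈ U)
    (h : ∃ a, g a x ∈ Q) (b : G) : lab lam g Q (g b x) = lab lam g Q x + lam b := by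
  obtain ⟨a, ha⟩ := h
  rw [lab_eq hgU hadd hsep hx ha]
  have h2 : g (a - b) (g b x) ∈ Q := by
    rw [← hadd _ _ x hx, sub_add_cancel]; exact ha
  rw [lab_eq hgU hadd hsep (hgU b x hx) h2, map_sub]
  abel

theorem sat_iff {U : Set V} {g : G → V → V}
    (hadd : ∀ a b, ∀ x ∈ U, g (a + b) x = g a (g b x)) {Q : Set V} {x : V} (hx : x ∈ U) (b : G) :
    (∃ a, g a (g b x) ∈ Q) ↔ ∃ a, g a x ∈ Q := by
  constructor
  · rintro ⟨a, ha⟩
    exact ⟨a + b, by rw [hadd _ _ x hx]; exact ha⟩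
  · rintro ⟨a, ha⟩
    refine ⟨a - b, ?_⟩
    rw [← hadd _ _ x hx, sub_add_cancel]; exact ha

/-- The label with respect to the first member of a set of indices. -/
noncomputable def labS {ι : Type*} (lam : G →+ (Fin m → ZMod p)) (g : G → V → V) (Q : ι → Set V)
    (S : Set ι) (x : V) : Fin m → ZMod p := by
  classical
  exact if h : S.Nonempty then lab lam g (Q h.some) x else 0

theorem labS_pos {ι : Type*} {lam : G →+ (Fin m → ZMod p)} {g : G → V → V} {Q : ι → Set V}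
    {S : Set ι} (h : S.Nonempty) (x : V) : labS lam g Q S x = lab lam g (Q h.some) x := dif_pos h

end basic

section cover

variable {V : Type*} [TopologicalSpace V] {G : Type*} [AddGroup G] [TopologicalSpace G]
  [CompactSpace G] {p k : ℕ}

theorem cont_at {U : Set V} (hU : IsOpen U) {g : G → V → V}
    (hcont : ContinuousOn (fun q : G × V => g q.1 q.2) (univ ×ˢ U)) {x : V} (hx : x ∈ U) (a : G) :
    ContinuousAt (fun z => g a z) x := by
  have h1 : ContinuousAt (fun q : G × V => g q.1 q.2) (a, x) :=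
    hcont.continuousAt ((isOpen_univ.prod hU).mem_nhds ⟨mem_univ _, hx⟩)
  exact h1.comp (f := fun z : V => ((a, z) : G × V)) (by fun_prop)

/-- Near a point, the whole orbits avoid a closed set, if the orbit of the point does. -/
theorem avoid {U : Set V} (hU : IsOpen U) {g : G → V → V}
    (hcont : ContinuousOn (fun q : G × V => g q.1 q.2) (univ ×ˢ U)) {C : Set V} (hC : IsClosed C)
    {x : V} (hx : x ∈ U) (h : ∀ a, g a x ∉ C) : ∀ᶠ z in 𝓝 x, ∀ a, g a z ∉ C := by
  have h1 : ∀ᶠ z in 𝓝 x, ∀ a ∈ (univ : Set G), g a z ∉ C := by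
    refine IsCompact.eventually_forall_of_forall_eventually isCompact_univ
      (P := fun z a => g a z ∉ C) fun a _ => ?_
    have h2 : ContinuousAt (fun q : V × G => g q.2 q.1) (x, a) := by
      have h3 : ContinuousAt (fun q : G × V => g q.1 q.2) (a, x) :=
        hcont.continuousAt ((isOpen_univ.prod hU).mem_nhds ⟨mem_univ _, hx⟩)
      exact ContinuousAt.comp (f := fun q : V × G => ((q.2, q.1) : G × V)) (x := (x, a)) h3
        (by fun_prop)
    exact h2.eventually (hC.isOpen_compl.mem_nhds (h a))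
  exact h1.mono fun z hz a => hz a (mem_univ a)

theorem lab_loc {lam : G →+ (Fin (k + 1) → ZMod p)} {U : Set V} (hU : IsOpen U)
    {g : G → V → V} (hgU : ∀ a, ∀ x ∈ U, g a x ∈ U)
    (hadd : ∀ a b, ∀ x ∈ U, g (a + b) x = g a (g b x))
    (hcont : ContinuousOn (fun q : G × V => g q.1 q.2) (univ ×ˢ U))
    {Q : Set V} (hQ : IsOpen Q) (hsep : ∀ a, ∀ x ∈ U, x ∈ Q → g a x ∈ Q → lam a = 0) {x : V}
    (hx : x ∈ U) (h : ∃ a, g a x ∈ Q) :
    ∀ᶠ z in 𝓝 x, (∃ a, g a z ∈ Q) ∧ lab lam g Q z = lab lam g Q x := by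
  obtain ⟨a, ha⟩ := h
  have h1 := (cont_at hU hcont hx a).eventually (hQ.mem_nhds ha)
  filter_upwards [h1, hU.mem_nhds hx] with z hz hzU
  exact ⟨⟨a, hz⟩, by rw [lab_eq hgU hadd hsep hzU hz, lab_eq hgU hadd hsep hx ha]⟩

/-- The types of the points of the fibre. -/
theorem cover (lam : G →+ (Fin (k + 1) → ZMod p)) {U : Set V} (hU : IsOpen U) {g : G → V → V}
    (hgU : ∀ a, ∀ x ∈ U, g a x ∈ U)
    (hadd : ∀ a b, ∀ x ∈ U, g (a + b) x = g a (g b x))
    (hcont : ContinuousOn (fun q : G × V => g q.1 q.2) (univ ×ˢ U))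
    {ι : Type*} [Finite ι] {Q : ι → Set V} (hQ : ∀ j, IsOpen (Q j))
    (hsep : ∀ j a, ∀ x ∈ U, x ∈ Q j → g a x ∈ Q j → lam a = 0)
    {f : ι → V → ℝ} (hf : ∀ j, ContinuousOn (f j) U)
    (hfi : ∀ j a, ∀ x ∈ U, f j (g a x) = f j x)
    (hfpos : ∀ j, ∀ x ∈ U, 0 < f j x → ∃ a, g a x ∈ Q j)
    {thr : ι × Fin k → ℝ} (hthr : ∀ s, 0 ≤ thr s) {Φ : Set V} (hΦ : Φ ⊆ U)
    (h1 : ∀ x ∈ Φ, ∃ j, (∀ a : Fin k, thr (j, a) < f j x) ∧ ∃ a, g a x ∈ Q j)
    (h2 : ∀ x ∈ Φ, (∃ j a, g a x ∈ frontier (Q j)) → {s | f s.1 x = thr s}.ncard < k) :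
    ∃ (N : Fin (k + 1) → Set V) (l : Fin (k + 1) → V → ZMod p),
      (∀ i, IsOpen (N i)) ∧ (∀ i, N i ⊆ U) ∧ (∀ i a, ∀ x ∈ N i, g a x ∈ N i) ∧
      (∀ i, ∀ x ∈ N i, ∀ᶠ z in 𝓝 x, l i z = l i x) ∧
      (∀ i a, ∀ x ∈ N i, l i (g a x) = l i x + lam a i) ∧ ∀ x ∈ Φ, ∃ i, x ∈ N i := by
  classical
  have : Fintype ι := Fintype.ofFinite ι
  -- the condition of a set of indices with small distance
  let Pσ : Finset (ι × Fin k) → V → Prop := fun σ x =>
    (∀ s t, s ∈ σ → t ∉ σ → |f s.1 x - thr s| < |f t.1 x - thr t|) ∧ ∀ t, t ∉ σ → f t.1 x ≠ thr t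
  have hPinv : ∀ σ a, ∀ x ∈ U, (Pσ σ (g a x) ↔ Pσ σ x) := by
    intro σ a x hx
    simp only [Pσ, hfi _ a x hx]
  have huniq : ∀ σ σ' x, Pσ σ x → Pσ σ' x → σ.card = σ'.card → σ = σ' := by
    intro σ σ' x h h' hc
    by_contra hne
    have h3 : ¬ σ ⊆ σ' := fun hs => hne (Finset.eq_of_subset_of_card_le hs hc.ge)
    have h4 : ¬ σ' ⊆ σ := fun hs => hne (Finset.eq_of_subset_of_card_le hs hc.le).symm
    obtain ⟨s, hs, hs'⟩ := Finset.not_subset.1 h3
    obtain ⟨t, ht, ht'⟩ := Finset.not_subset.1 h4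
    exact lt_asymm (h.1 s t hs ht') (h'.1 t s ht hs')
  have hfa : ∀ j, ∀ x ∈ U, ContinuousAt (f j) x := fun j x hx => (hf j).continuousAt (hU.mem_nhds hx)
  have hPloc : ∀ σ, ∀ x ∈ U, Pσ σ x → ∀ᶠ z in 𝓝 x, Pσ σ z ∧
      ∀ t, t ∉ σ → (thr t < f t.1 z ↔ thr t < f t.1 x) := by
    intro σ x hx h
    have e1 : ∀ᶠ z in 𝓝 x, ∀ s t, s ∈ σ → t ∉ σ →
        |f s.1 z - thr s| < |f t.1 z - thr t| := by
      refine eventually_all.2 fun s => eventually_all.2 fun t => ?_
      by_cases hs : s ∈ σ ∧ t ∉ σ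
      · have h3 : ContinuousAt (fun z => |f s.1 z - thr s|) x :=
          ((hfa s.1 x hx).sub continuousAt_const).abs
        have h4 : ContinuousAt (fun z => |f t.1 z - thr t|) x :=
          ((hfa t.1 x hx).sub continuousAt_const).abs
        exact (h3.eventually_lt h4 (h.1 s t hs.1 hs.2)).mono fun z hz _ _ => hz
      · exact Eventually.of_forall fun z h5 h6 => absurd ⟨h5, h6⟩ hs
    have e2 : ∀ᶠ z in 𝓝 x, ∀ t, t ∉ σ → f t.1 z ≠ thr t ∧
        (thr t < f t.1 z ↔ thr t < f t.1 x) := by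
      refine eventually_all.2 fun t => ?_
      by_cases ht : t ∈ σ
      · exact Eventually.of_forall fun z h5 => absurd ht h5
      · rcases lt_or_gt_of_ne (h.2 t ht) with h5 | h5
        · exact ((hfa t.1 x hx).eventually_lt continuousAt_const h5).mono fun z hz _ =>
            ⟨hz.ne, fun h6 => absurd hz h6.not_gt, fun h6 => absurd h5 h6.not_gt⟩
        · exact (continuousAt_const.eventually_lt (hfa t.1 x hx) h5).mono fun z hz _ =>
            ⟨hz.ne', fun _ => h5, fun _ => hz⟩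
    filter_upwards [e1, e2] with z hz1 hz2
    exact ⟨⟨hz1, fun t ht => (hz2 t ht).1⟩, fun t ht => (hz2 t ht).2⟩
  -- the set of indices above the threshold
  let T : ℕ → V → Set ι := fun i x =>
    {j | ∃ σ : Finset (ι × Fin k), σ.card = i ∧ Pσ σ x ∧ ∃ a, (j, a) ∉ σ ∧ thr (j, a) < f j x}
  let S : V → Set ι := fun x => {j | ∃ a, g a x ∈ Q j}
  let B : Set V := {x | ∃ j a, g a x ∈ frontier (Q j)}
  let N : Fin (k + 1) → Set V := fun i =>
    if (i : ℕ) < k then {x | x ∈ U ∧ (T i x).Nonempty} else {x | x ∈ U ∧ x ∉ B ∧ (S x).Nonempty}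
  let l : Fin (k + 1) → V → ZMod p := fun i x =>
    if (i : ℕ) < k then labS lam g Q (T i x) x i else labS lam g Q (S x) x i
  have hTS : ∀ i, ∀ x ∈ U, ∀ j ∈ T i x, ∃ a, g a x ∈ Q j := by
    rintro i x hx j ⟨σ, -, -, a, -, ha⟩
    exact hfpos j x hx ((hthr _).trans_lt ha)
  have hTinv : ∀ i a, ∀ x ∈ U, T i (g a x) = T i x := by
    intro i a x hx
    ext j
    simp only [T, mem_ofPred_eq, hPinv _ a x hx, hfi _ a x hx]
  have hSinv : ∀ a, ∀ x ∈ U, S (g a x) = S x := by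
    intro a x hx
    ext j
    simp only [S, mem_ofPred_eq, sat_iff hadd hx a]
  have hBinv : ∀ a, ∀ x ∈ U, (g a x ∈ B ↔ x ∈ B) := by
    intro a x hx
    simp only [B, mem_ofPred_eq, sat_iff hadd hx a]
  have hTloc : ∀ i, ∀ x ∈ U, (T i x).Nonempty → ∀ᶠ z in 𝓝 x, T i z = T i x := by
    rintro i x hx ⟨j, σ, hc, hP, a, ha, hja⟩
    filter_upwards [hPloc σ x hx hP] with z hz
    ext j'
    simp only [T, mem_ofPred_eq]
    constructor
    · rintro ⟨σ', hc', hP', a', ha', hja'⟩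
      have h5 : σ' = σ := huniq _ _ z hP' hz.1 (hc'.trans hc.symm)
      subst h5
      exact ⟨σ', hc, hP, a', ha', (hz.2 _ ha').1 hja'⟩
    · rintro ⟨σ', hc', hP', a', ha', hja'⟩
      have h5 : σ' = σ := huniq _ _ x hP' hP (hc'.trans hc.symm)
      subst h5
      exact ⟨σ', hc, hz.1, a', ha', (hz.2 _ ha').2 hja'⟩
  have hSloc : ∀ x ∈ U, x ∉ B → ∀ᶠ z in 𝓝 x, S z = S x := by
    intro x hx hxB
    have h5 : ∀ᶠ z in 𝓝 x, ∀ j, (∃ a, g a z ∈ Q j) ↔ ∃ a, g a x ∈ Q j := by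
      refine eventually_all.2 fun j => ?_
      by_cases h6 : ∃ a, g a x ∈ Q j
      · exact (lab_loc hU hgU hadd hcont (hQ j) (hsep j) hx h6).mono fun z hz =>
          ⟨fun _ => h6, fun _ => hz.1⟩
      · have h7 : ∀ a, g a x ∉ closure (Q j) := by
          intro a ha
          refine hxB ⟨j, a, ha, ?_⟩
          rw [(hQ j).interior_eq]
          exact fun h8 => h6 ⟨a, h8⟩
        refine (avoid hU hcont isClosed_closure hx h7).mono fun z hz => ⟨?_, fun h8 => absurd h8 h6⟩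
        rintro ⟨a, ha⟩
        exact absurd (subset_closure ha) (hz a)
    filter_upwards [h5] with z hz
    ext j
    exact hz j
  have hBloc : ∀ x ∈ U, x ∉ B → ∀ᶠ z in 𝓝 x, z ∉ B := by
    intro x hx hxB
    have h5 : ∀ᶠ z in 𝓝 x, ∀ j, ∀ a, g a z ∉ frontier (Q j) :=
      eventually_all.2 fun j => avoid hU hcont isClosed_frontier hx fun a ha => hxB ⟨j, a, ha⟩
    filter_upwards [h5] with z hz
    rintro ⟨j, a, ha⟩
    exact hz j a ha
  have hlabS : ∀ (R : Set ι) (x : V), x ∈ U → R.Nonempty → (∀ j ∈ R, ∃ a, g a x ∈ Q j) →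
      (∀ᶠ z in 𝓝 x, labS lam g Q R z = labS lam g Q R x) ∧
      ∀ b, labS lam g Q R (g b x) = labS lam g Q R x + lam b := by
    intro R x hx hR hRx
    constructor
    · refine (lab_loc hU hgU hadd hcont (hQ _) (hsep hR.some) hx (hRx _ hR.some_mem)).mono
        fun z hz => ?_
      rw [labS_pos hR, labS_pos hR]
      exact hz.2
    · intro b
      rw [labS_pos hR, labS_pos hR]
      exact lab_add hgU hadd (hsep _) hx (hRx _ hR.some_mem) b
  refine ⟨N, l, ?_, ?_, ?_, ?_, ?_, ?_⟩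
  · intro i
    rw [isOpen_iff_mem_nhds]
    intro x hx
    by_cases hi : (i : ℕ) < k
    · simp only [N, if_pos hi] at hx ⊢
      filter_upwards [hU.mem_nhds hx.1, hTloc i x hx.1 hx.2] with z hz1 hz2
      exact ⟨hz1, by rw [hz2]; exact hx.2⟩
    · simp only [N, if_neg hi] at hx ⊢
      filter_upwards [hU.mem_nhds hx.1, hBloc x hx.1 hx.2.1, hSloc x hx.1 hx.2.1] with z hz1 hz2 hz3
      exact ⟨hz1, hz2, by rw [hz3]; exact hx.2.2⟩
  · intro i x hx
    by_cases hi : (i : ℕ) < k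
    · simp only [N, if_pos hi] at hx
      exact hx.1
    · simp only [N, if_neg hi] at hx
      exact hx.1
  · intro i a x hx
    by_cases hi : (i : ℕ) < k
    · simp only [N, if_pos hi] at hx ⊢
      exact ⟨hgU a x hx.1, by rw [hTinv i a x hx.1]; exact hx.2⟩
    · simp only [N, if_neg hi] at hx ⊢
      exact ⟨hgU a x hx.1, fun h => hx.2.1 ((hBinv a x hx.1).1 h), by
        rw [hSinv a x hx.1]; exact hx.2.2⟩
  · intro i x hx
    by_cases hi : (i : ℕ) < k
    · simp only [N, if_pos hi] at hx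
      simp only [l, if_pos hi]
      filter_upwards [hTloc i x hx.1 hx.2, (hlabS _ x hx.1 hx.2 (hTS i x hx.1)).1] with z hz1 hz2
      rw [hz1, hz2]
    · simp only [N, if_neg hi] at hx
      simp only [l, if_neg hi]
      filter_upwards [hSloc x hx.1 hx.2.1, (hlabS _ x hx.1 hx.2.2 fun j hj => hj).1] with z hz1 hz2
      rw [hz1, hz2]
  · intro i a x hx
    by_cases hi : (i : ℕ) < k
    · simp only [N, if_pos hi] at hx
      simp only [l, if_pos hi]
      rw [hTinv i a x hx.1, (hlabS _ x hx.1 hx.2 (hTS i x hx.1)).2 a]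
      rfl
    · simp only [N, if_neg hi] at hx
      simp only [l, if_neg hi]
      rw [hSinv a x hx.1, (hlabS _ x hx.1 hx.2.2 fun j hj => hj).2 a]
      rfl
  · intro x hx
    have hxU := hΦ hx
    obtain ⟨j, hj, hja⟩ := h1 x hx
    by_cases hxB : x ∈ B
    · let σ : Finset (ι × Fin k) := Finset.univ.filter fun s => f s.1 x = thr s
      have hσ : σ.card < k := by
        have h5 := h2 x hx hxB
        have h6 : {s : ι × Fin k | f s.1 x = thr s} = (σ : Set (ι × Fin k)) := by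
          ext s
          simp [σ]
        rw [h6, Set.ncard_coe_finset] at h5
        exact h5
      have hPσ : Pσ σ x := by
        refine ⟨fun s t hs ht => ?_, fun t ht => ?_⟩
        · have hs' : f s.1 x = thr s := by simpa [σ] using hs
          have ht' : f t.1 x ≠ thr t := by simpa [σ] using ht
          rw [hs', sub_self, abs_zero]
          exact abs_pos.2 (sub_ne_zero.2 ht')
        · simpa [σ] using ht
      have hex : ∃ a : Fin k, (j, a) ∉ σ := by
        by_contra hcon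
        push Not at hcon
        have h5 : (Finset.univ : Finset (Fin k)).card ≤ σ.card :=
          Finset.card_le_card_of_injOn (fun a => (j, a)) (fun a _ => hcon a)
            (fun a _ b _ hab => by simpa using hab)
        rw [Finset.card_univ, Fintype.card_fin] at h5
        omega
      obtain ⟨a, ha⟩ := hex
      refine ⟨⟨σ.card, by omega⟩, ?_⟩
      simp only [N, if_pos hσ]
      exact ⟨hxU, j, σ, rfl, hPσ, a, ha, hj a⟩
    · refine ⟨Fin.last k, ?_⟩
      simp only [N, Fin.val_last, lt_irrefl, if_false]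
      exact ⟨hxU, hxB, j, hja⟩

end cover

end Pool.Agent.Helper43.Rank
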