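import Pool.Agent.Helper3.HS.Defs

/-!
# Energy of Hölder maps, and uniform Hölder bounds by Baire's theorem (module M7 of RANK)
-/

set_option autoImplicit false
set_option linter.unusedSectionVars false

open Set MeasureTheory Metric Filter Topology
open scoped NNReal ENNReal

namespace Pool.Agent.Helper43.Rank

open Pool.Agent.Helper3.HS

/-- Regular points have neighbourhoods of finite Hausdorff measure. -/
theorem exists_finite_nhd {n : ℕ} {X : Type*} [MetricSpace X] [MeasurableSpace X] [BorelSpace X]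
    {x : X} (hx : x ∈ regPts n X) : ∃ V ∈ 𝓝 x, (μH[(n : ℝ)] : Measure X) V < ∞ := by
  obtain ⟨e, C, hxs, hC, hC'⟩ := hx
  obtain ⟨r, hr, hball⟩ := Metric.isOpen_iff.1 e.open_target _ (e.map_source hxs)
  refine ⟨e.symm '' ball (e x) r, ?_, ?_⟩
  · have h1 := e.symm.image_mem_nhds (e.map_source hxs) (ball_mem_nhds (e x) hr)
    rwa [e.left_inv hxs] at h1
  · refine lt_of_le_of_lt ((hC'.mono hball).hausdorffMeasure_image_le (Nat.cast_nonneg n)) ?_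
    have h2 : (μH[(n : ℝ)] : Measure (Fin n → ℝ)) = volume := by
      have h3 := hausdorffMeasure_pi_real (ι := Fin n)
      rwa [Fintype.card_fin] at h3
    rw [h2]
    exact ENNReal.mul_lt_top (ENNReal.rpow_lt_top_of_nonneg (Nat.cast_nonneg n)
      ENNReal.coe_ne_top) measure_ball_lt_top

/-- The scale of the energy. -/
theorem exists_scale {d e : ℕ} {C b : ℝ≥0} (hb : (d : ℝ) < b * e) {M : ℝ≥0∞} (hM : M < ∞)
    {ε : ℝ≥0∞} (hε : 0 < ε) : ∃ h : ℝ, 0 < h ∧ h ≤ 1 ∧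
      ((C : ℝ≥0∞) * ENNReal.ofReal (2 * h) ^ (b : ℝ)) ^ e * M ≤ ε * ENNReal.ofReal (h ^ d) := by
  set K : ℝ := ((C : ℝ) * 2 ^ (b : ℝ)) ^ e * M.toReal with hK
  have hK0 : 0 ≤ K := by positivity
  set ε' : ℝ := (min ε 1).toReal with hε'
  have hm0 : min ε 1 ≠ ∞ := ne_top_of_le_ne_top ENNReal.one_ne_top (min_le_right _ _)
  have hε0 : 0 < ε' := ENNReal.toReal_pos (lt_min hε one_pos).ne' hm0
  have hs : 0 < (b : ℝ) * e - d := by linarith
  have ht : Tendsto (fun h : ℝ => K * h ^ ((b : ℝ) * e - d)) (𝓝[>] 0) (𝓝 0) := by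
    have h1 : Tendsto (fun h : ℝ => K * h ^ ((b : ℝ) * e - d)) (𝓝 0) (𝓝 (K * 0 ^ ((b : ℝ) * e - d))) :=
      tendsto_const_nhds.mul ((Real.continuousAt_rpow_const _ _ (Or.inr hs.le)).tendsto)
    rw [Real.zero_rpow hs.ne', mul_zero] at h1
    exact h1.mono_left nhdsWithin_le_nhds
  have h2 : ∀ᶠ h : ℝ in 𝓝[>] 0, K * h ^ ((b : ℝ) * e - d) < ε' :=
    ht.eventually (gt_mem_nhds hε0)
  have h3 : ∀ᶠ h : ℝ in 𝓝[>] 0, 0 < h ∧ h ≤ 1 := by
    filter_upwards [Ioc_mem_nhdsGT (zero_lt_one (α := ℝ))] with h hh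
    exact hh
  obtain ⟨h, hh1, hh2, hh3⟩ := (h2.and h3).exists
  refine ⟨h, hh2, hh3, ?_⟩
  have e1 : ((C : ℝ≥0∞) * ENNReal.ofReal (2 * h) ^ (b : ℝ)) ^ e * M =
      ENNReal.ofReal (K * h ^ ((b : ℝ) * e)) := by
    have h4 : (C : ℝ≥0∞) = ENNReal.ofReal (C : ℝ) := by simp
    rw [h4, ENNReal.ofReal_rpow_of_pos (by positivity), ← ENNReal.ofReal_mul (by positivity),
      ← ENNReal.ofReal_pow (by positivity)]
    nth_rewrite 1 [← ENNReal.ofReal_toReal hM.ne]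
    rw [← ENNReal.ofReal_mul (by positivity)]
    congr 1
    rw [hK, Real.mul_rpow (by norm_num) hh2.le, mul_pow, mul_pow, mul_pow, Real.rpow_mul_natCast hh2.le]
    ring
  have e2 : K * h ^ ((b : ℝ) * e) ≤ ε' * h ^ d := by
    have h5 : h ^ ((b : ℝ) * e) = h ^ ((b : ℝ) * e - d) * h ^ d := by
      rw [← Real.rpow_natCast h d, ← Real.rpow_add hh2]
      congr 1
      ring
    rw [h5, ← mul_assoc]
    exact mul_le_mul_of_nonneg_right hh1.le (by positivity)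
  rw [e1]
  calc ENNReal.ofReal (K * h ^ ((b : ℝ) * e)) ≤ ENNReal.ofReal (ε' * h ^ d) :=
        ENNReal.ofReal_le_ofReal e2
    _ = min ε 1 * ENNReal.ofReal (h ^ d) := by
        rw [ENNReal.ofReal_mul hε0.le, hε', ENNReal.ofReal_toReal hm0]
    _ ≤ ε * ENNReal.ofReal (h ^ d) := by gcongr; exact min_le_left _ _

/-- The energy of uniformly Hölder continuous maps. -/
theorem energy_of_holder {d e : ℕ} {A : Type*} [MeasurableSpace A] {ν : Measure A}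
    [IsProbabilityMeasure ν] {X : Type*} [MetricSpace X] [MeasurableSpace X] [BorelSpace X]
    {n : ℕ} {x : X} (hx : x ∈ regPts n X) {C b : ℝ≥0} (hb : (d : ℝ) < b * e) {φ : A → X → X}
    {V₀ : Set X} (hV₀ : V₀ ∈ 𝓝 x) (hH : ∀ a, HolderOnWith C b (φ a) V₀) :
    ∃ V ∈ 𝓝 x, ∀ ε : ℝ≥0∞, 0 < ε → ∃ h : ℝ, 0 < h ∧ h ≤ 1 ∧ ∫⁻ a,
      ∫⁻ y in V, Metric.ediam (φ a '' (ball y h ∩ V)) ^ e ∂(μH[(n : ℝ)] : Measure X) ∂ν ≤
        ε * ENNReal.ofReal (h ^ d) := by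
  obtain ⟨V₁, hV₁, hfin⟩ := exists_finite_nhd hx
  refine ⟨V₀ ∩ V₁, inter_mem hV₀ hV₁, fun ε hε => ?_⟩
  have hfin' : (μH[(n : ℝ)] : Measure X) (V₀ ∩ V₁) < ∞ :=
    lt_of_le_of_lt (measure_mono inter_subset_right) hfin
  obtain ⟨h, h0, h1, hle⟩ := exists_scale (C := C) hb hfin' hε
  refine ⟨h, h0, h1, le_trans ?_ hle⟩
  have hin : ∀ a, ∫⁻ y in V₀ ∩ V₁, Metric.ediam (φ a '' (ball y h ∩ (V₀ ∩ V₁))) ^ e
      ∂(μH[(n : ℝ)] : Measure X) ≤
      ((C : ℝ≥0∞) * ENNReal.ofReal (2 * h) ^ (b : ℝ)) ^ e * (μH[(n : ℝ)] : Measure X) (V₀ ∩ V₁) := by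
    intro a
    calc _ ≤ ∫⁻ _ in V₀ ∩ V₁, ((C : ℝ≥0∞) * ENNReal.ofReal (2 * h) ^ (b : ℝ)) ^ e
          ∂(μH[(n : ℝ)] : Measure X) := by
          refine lintegral_mono fun y => ?_
          refine pow_le_pow_left' ?_ e
          refine (hH a).ediam_image_le_of_subset_of_le
            (inter_subset_right.trans inter_subset_left) ?_
          refine Metric.ediam_le fun z hz w hw => ?_
          rw [edist_dist]
          refine ENNReal.ofReal_le_ofReal ?_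
          have h3 := dist_triangle_right z w y
          have h4 : dist z y < h := hz.1
          have h5 : dist w y < h := hw.1
          linarith
      _ = _ := by rw [setLIntegral_const]
  calc _ ≤ ∫⁻ _ : A, ((C : ℝ≥0∞) * ENNReal.ofReal (2 * h) ^ (b : ℝ)) ^ e *
        (μH[(n : ℝ)] : Measure X) (V₀ ∩ V₁) ∂ν := lintegral_mono hin
    _ = _ := by rw [lintegral_const, measure_univ, mul_one]

/-- If every element of a Baire group acts locally Hölder continuously, then this is uniform on a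
neighbourhood of zero, near some point. -/
theorem exists_uniform {G : Type*} [AddCommGroup G] [TopologicalSpace G] [IsTopologicalAddGroup G]
    [BaireSpace G] {X : Type*} [MetricSpace X] [AddAction G X] [ContinuousVAdd G X] {W : Set X}
    (hW : IsOpen W) (hWn : W.Nonempty)
    (hH : ∀ a : G, ∀ x ∈ W, ∃ V ∈ 𝓝 x, ∃ C b : ℝ≥0, 0 < b ∧ HolderOnWith C b (fun y => a +ᵥ y) V) :
    ∃ H ∈ 𝓝 (0 : G), ∃ x ∈ W, ∃ V ∈ 𝓝 x, ∃ C b : ℝ≥0, 0 < b ∧
      ∀ h ∈ H, HolderOnWith C b (fun y => h +ᵥ y) V := by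
  obtain ⟨x₀, hx₀⟩ := hWn
  let r : ℕ → ℝ := fun N => 1 / ((N : ℝ) + 1)
  let q : ℕ → ℝ≥0 := fun N => 1 / ((N : ℝ≥0) + 1)
  have hrq : ∀ N, ((q N : ℝ≥0) : ℝ) = r N := fun N => by simp [q, r]
  let E : ℕ → Set G := fun N => {a | HolderOnWith ((N : ℝ≥0) + 1) (q N) (fun y => a +ᵥ y)
    (ball x₀ (r N))}
  have hEc : ∀ N, IsClosed (E N) := by
    intro N
    have h1 : E N = ⋂ y ∈ ball x₀ (r N), ⋂ z ∈ ball x₀ (r N),
        {a : G | edist (a +ᵥ y) (a +ᵥ z) ≤ (((N : ℝ≥0) + 1 : ℝ≥0) : ℝ≥0∞) *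
          edist y z ^ ((q N : ℝ≥0) : ℝ)} := by
      ext a
      simp only [E, HolderOnWith, mem_iInter]
      rfl
    rw [h1]
    refine isClosed_biInter fun y _ => isClosed_biInter fun z _ => ?_
    exact isClosed_le (Continuous.edist (by fun_prop) (by fun_prop)) continuous_const
  have hEu : ⋃ N, E N = univ := by
    refine eq_univ_of_forall fun a => ?_
    obtain ⟨V, hV, C, b, hb, hVH⟩ := hH a x₀ hx₀
    obtain ⟨δ, hδ, hball⟩ := Metric.mem_nhds_iff.1 hV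
    have t1 : ∀ᶠ N : ℕ in atTop, r N < δ :=
      (tendsto_one_div_add_atTop_nhds_zero_nat (𝕜 := ℝ)).eventually (gt_mem_nhds hδ)
    have t2 : ∀ᶠ N : ℕ in atTop, r N < b :=
      (tendsto_one_div_add_atTop_nhds_zero_nat (𝕜 := ℝ)).eventually
        (gt_mem_nhds (by exact_mod_cast hb))
    have t3 : ∀ᶠ N : ℕ in atTop, (C : ℝ) ≤ N := by
      obtain ⟨N₀, hN₀⟩ := exists_nat_ge (C : ℝ)
      filter_upwards [eventually_ge_atTop N₀] with N hN
      exact hN₀.trans (by exact_mod_cast hN)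
    obtain ⟨N, h1, h2, h3, h4⟩ := (t1.and (t2.and (t3.and (eventually_ge_atTop 1)))).exists
    refine mem_iUnion.2 ⟨N, ?_⟩
    intro y hy z hz
    have h5 : edist y z ≤ 1 := by
      rw [edist_dist]
      refine ENNReal.ofReal_le_one.2 ?_
      have h6 := dist_triangle_right y z x₀
      have h7 : dist y x₀ < r N := hy
      have h8 : dist z x₀ < r N := hz
      have h9 : r N ≤ 1 / 2 := by
        have h10 : (1 : ℝ) ≤ N := by exact_mod_cast h4
        show 1 / ((N : ℝ) + 1) ≤ 1 / 2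
        exact one_div_le_one_div_of_le (by norm_num) (by linarith)
      linarith
    have hsub : ball x₀ (r N) ⊆ V := (ball_subset_ball h1.le).trans hball
    refine (hVH y (hsub hy) z (hsub hz)).trans ?_
    have h11 : (C : ℝ≥0∞) ≤ (((N : ℝ≥0) + 1 : ℝ≥0) : ℝ≥0∞) := by
      rw [ENNReal.coe_le_coe]
      have h12 : C ≤ (N : ℝ≥0) := by exact_mod_cast h3
      exact h12.trans (le_add_of_nonneg_right zero_le_one)
    refine mul_le_mul' h11 ?_
    refine ENNReal.rpow_le_rpow_of_exponent_ge h5 ?_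
    rw [hrq]
    exact h2.le
  have hd := dense_iUnion_interior_of_closed hEc hEu
  have hO : IsOpen {a : G | a +ᵥ x₀ ∈ W} :=
    hW.preimage (by fun_prop : Continuous fun a : G => a +ᵥ x₀)
  obtain ⟨a₀, ha₀, ha₀E⟩ := hd.inter_open_nonempty _ hO ⟨0, by
    show (0 : G) +ᵥ x₀ ∈ W
    rw [zero_vadd]; exact hx₀⟩
  obtain ⟨N, hN⟩ := mem_iUnion.1 ha₀E
  have hx₁ : a₀ +ᵥ x₀ ∈ W := ha₀
  obtain ⟨V₂, hV₂, C₂, b₂, hb₂, hH₂⟩ := hH (-a₀) (a₀ +ᵥ x₀) hx₁
  have hH' : {h : G | a₀ + h ∈ interior (E N)} ∈ 𝓝 (0 : G) := by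
    have h1 : Continuous fun h : G => a₀ + h := by fun_prop
    refine h1.continuousAt.preimage_mem_nhds (isOpen_interior.mem_nhds ?_)
    rw [add_zero]
    exact hN
  have hV₁ : V₂ ∩ (fun y => -a₀ +ᵥ y) ⁻¹' ball x₀ (r N) ∈ 𝓝 (a₀ +ᵥ x₀) := by
    refine inter_mem hV₂ ?_
    have h1 : Continuous fun y : X => -a₀ +ᵥ y := by fun_prop
    refine h1.continuousAt.preimage_mem_nhds ?_
    have h2 : -a₀ +ᵥ (a₀ +ᵥ x₀) = x₀ := by rw [vadd_vadd, neg_add_cancel, zero_vadd]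
    show ball x₀ (r N) ∈ 𝓝 (-a₀ +ᵥ (a₀ +ᵥ x₀))
    rw [h2]
    exact ball_mem_nhds _ (by positivity)
  refine ⟨_, hH', a₀ +ᵥ x₀, hx₁, _, hV₁, ((N : ℝ≥0) + 1) * C₂ ^ ((q N : ℝ≥0) : ℝ), q N * b₂, ?_, ?_⟩
  · exact mul_pos (by positivity) hb₂
  · intro h hh
    have h1 : HolderOnWith ((N : ℝ≥0) + 1) (q N) (fun y => (a₀ + h) +ᵥ y) (ball x₀ (r N)) :=
      interior_subset (s := E N) hh
    have h2 := h1.comp (hH₂.mono inter_subset_left :
      HolderOnWith C₂ b₂ _ (V₂ ∩ (fun y => -a₀ +ᵥ y) ⁻¹' ball x₀ (r N)))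
      (fun y hy => hy.2)
    have h3 : (fun y : X => (a₀ + h) +ᵥ y) ∘ (fun y => -a₀ +ᵥ y) = fun y => h +ᵥ y := by
      funext y
      show (a₀ + h) +ᵥ (-a₀ +ᵥ y) = h +ᵥ y
      rw [vadd_vadd]
      congr 1
      abel
    rw [h3] at h2
    exact h2

/-- Neighbourhoods of zero in a countable power contain the sequences with many zeros. -/
theorem exists_zeros {A : Type*} [AddCommGroup A] [TopologicalSpace A] {H : Set (ℕ → A)}
    (hH : H ∈ 𝓝 (0 : ℕ → A)) : ∃ M : ℕ, ∀ h : ℕ → A, (∀ i, i < M → h i = 0) → h ∈ H := by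
  rw [nhds_pi, Filter.mem_pi] at hH
  obtain ⟨I, hI, t, ht, hsub⟩ := hH
  obtain ⟨M, hM⟩ := hI.bddAbove
  refine ⟨M + 1, fun h hh => hsub fun i hi => ?_⟩
  rw [hh i (Nat.lt_succ_of_le (hM hi))]
  exact mem_of_mem_nhds (ht i)

end Pool.Agent.Helper43.Rank
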